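import Pool.Agent.Y706.BI.Stm

/-!
# Project BI: the Green function and the pairing of a balanced bicritical map
-/

set_option autoImplicit false

namespace Pool.Agent.Y824.BI

open Pool.Agent.W277.UB Pool.Agent.W277.UG Pool.Agent.W277.UH Pool.Agent.Y706.BI Finset Polynomial

universe u

section

variable {Ω : Type u} [NormedField Ω]

/-- `F X` is a multiple of `fU X` -/
lemma fU_spec (S : HS Ω) (X : UV Ω) :
    ∃ t : Ω, t ≠ 0 ∧ S.F X.1 = t • (fU S X).1 ∧ ‖t‖ = ‖S.F X.1‖ :=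
  nrm_spec (S.F X.1) (S.nz X.1 X.ne)

lemma eqv_spec {X Y : UV Ω} (h : eqv X Y) : ∃ t : Ω, t ≠ 0 ∧ ‖t‖ = 1 ∧ X.1 = t • Y.1 := by
  obtain ⟨t, ht⟩ := (wd_zero_iff Y.ne).1 h
  have h1 : ‖t‖ = 1 := by
    have := congrArg norm ht
    rw [norm_smul, X.2, Y.2, mul_one] at this
    exact this.symm
  refine ⟨t, ?_, h1, ht⟩
  rintro rfl
  rw [norm_zero] at h1
  exact zero_ne_one h1

lemma hh_eqv (S : HS Ω) {X Y : UV Ω} (h : eqv X Y) : hh S X = hh S Y := by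
  obtain ⟨t, _, h1, h2⟩ := eqv_spec h
  unfold hh
  rw [h2, S.hom, norm_smul, norm_pow, h1, one_pow, one_mul]

lemma fU_eqv (S : HS Ω) {X Y : UV Ω} (h : eqv X Y) : eqv (fU S X) (fU S Y) := by
  obtain ⟨t, _, h1, h2⟩ := eqv_spec h
  obtain ⟨s, hs, hs1, _⟩ := fU_spec S X
  obtain ⟨r, hr, hr1, _⟩ := fU_spec S Y
  have h3 : wd (S.F X.1) (S.F Y.1) = 0 := by
    rw [h2, S.hom, wd_smul_left, wd_self, mul_zero]
  rw [hs1, hr1, wd_smul_left, wd_smul_right] at h3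
  exact ((mul_eq_zero.1 h3).resolve_left hs |> mul_eq_zero.1).resolve_left hr

lemma iter_eqv (S : HS Ω) {X Y : UV Ω} (h : eqv X Y) (n : ℕ) :
    eqv ((fU S)^[n] X) ((fU S)^[n] Y) := by
  induction n with
  | zero => exact h
  | succ n ih =>
    rw [Function.iterate_succ_apply', Function.iterate_succ_apply']
    exact fU_eqv S ih

lemma G0_eqv (S : HS Ω) {X Y : UV Ω} (h : eqv X Y) : G0 S X = G0 S Y := by
  unfold G0
  exact tsum_congr fun n => by rw [hh_eqv S (iter_eqv S h n)]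

lemma gg_eqv (S : HS Ω) {X Y : UV Ω} (h : eqv X Y) (Z : UV Ω) :
    gg S X Z = gg S Y Z ∧ (eqv X Z ↔ eqv Y Z) := by
  obtain ⟨t, ht, h1, h2⟩ := eqv_spec h
  constructor
  · unfold gg
    rw [G0_eqv S h, h2, wd_smul_left, norm_mul, h1, one_mul]
  · unfold eqv
    rw [h2, wd_smul_left, mul_eq_zero]
    exact ⟨fun h3 => h3.resolve_left ht, fun h3 => Or.inr h3⟩

lemma gg_symm (S : HS Ω) (X Y : UV Ω) : gg S X Y = gg S Y X := by
  unfold gg
  rw [wd_comm X.1 Y.1, norm_neg]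
  ring

lemma rt_eqv (S : HS Ω) (Y : UV Ω) (l : Fin S.d) : eqv (fU S (rt S Y l)) Y := by
  obtain ⟨t, ht⟩ := HS.rs_root (rt_spec S Y) Y.2 l
  obtain ⟨s, hs, hs1, _⟩ := fU_spec S (rt S Y l)
  have h1 : wd (S.F (rt S Y l).1) Y.1 = 0 := by
    rw [ht, wd_smul_left, wd_self, mul_zero]
  rw [hs1, wd_smul_left] at h1
  exact (mul_eq_zero.1 h1).resolve_left hs

end

section

variable {Ω : Type u} [NormedField Ω] [IsUltrametricDist Ω]

lemma rho_nonneg (T : BB Ω) : 0 ≤ T.ρ := by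
  have h1 := norm_wd_le T.U T.V
  rw [T.hU, T.hV, T.hρ, one_mul, Real.exp_le_one_iff] at h1
  linarith

lemma hh_le (T : BB Ω) (X : UV Ω) : hh T.S X ≤ 0 := by
  have h1 := HS.le_gs (S := T.S) X.2.le
  rw [T.hgs] at h1
  exact Real.log_nonpos (norm_nonneg _) h1

lemma le_hh (T : BB Ω) (X : UV Ω) : -(2 * T.ρ) ≤ hh T.S X := by
  have hpos : 0 < ‖T.S.F X.1‖ := HS.F_pos _ X.2
  have e1 : wd (T.S.F X.1) T.V = X.1.1 ^ T.S.d * wd T.U T.V := by
    rw [T.hF, wd_add_left, wd_smul_left, wd_smul_left, wd_self, mul_zero, add_zero]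
  have e2 : wd (T.S.F X.1) T.U = -(X.1.2 ^ T.S.d * wd T.U T.V) := by
    rw [T.hF, wd_add_left, wd_smul_left, wd_smul_left, wd_self, mul_zero, zero_add,
      wd_comm T.V T.U]
    ring
  have h1 : ‖X.1.1‖ ^ T.S.d * Real.exp (-(2 * T.ρ)) ≤ ‖T.S.F X.1‖ := by
    have := norm_wd_le (T.S.F X.1) T.V
    rwa [e1, T.hV, mul_one, norm_mul, norm_pow, T.hρ] at this
  have h2 : ‖X.1.2‖ ^ T.S.d * Real.exp (-(2 * T.ρ)) ≤ ‖T.S.F X.1‖ := by
    have := norm_wd_le (T.S.F X.1) T.U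
    rwa [e2, T.hU, mul_one, norm_neg, norm_mul, norm_pow, T.hρ] at this
  have h3 : Real.exp (-(2 * T.ρ)) ≤ ‖T.S.F X.1‖ := by
    have h4 := X.2
    rw [Prod.norm_def] at h4
    rcases max_choice ‖X.1.1‖ ‖X.1.2‖ with h5 | h5
    · rw [h5] at h4
      rwa [h4, one_pow, one_mul] at h1
    · rw [h5] at h4
      rwa [h4, one_pow, one_mul] at h2
  unfold hh
  rw [← Real.log_exp (-(2 * T.ρ))]
  exact Real.log_le_log (Real.exp_pos _) h3

lemma geo (T : BB Ω) : HasSum (fun n : ℕ => 1 / (T.S.d : ℝ) ^ (n + 1)) (1 / ((T.S.d : ℝ) - 1)) := by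
  have hd : (2 : ℝ) ≤ T.S.d := by exact_mod_cast T.hd
  have h1 := hasSum_geometric_of_lt_one (r := 1 / (T.S.d : ℝ)) (by positivity)
    (by rw [div_lt_one (by linarith)]; linarith)
  have h2 := h1.mul_left (1 / (T.S.d : ℝ))
  have h3 : 1 / (T.S.d : ℝ) * (1 - 1 / (T.S.d : ℝ))⁻¹ = 1 / ((T.S.d : ℝ) - 1) := by
    have h4 : (T.S.d : ℝ) ≠ 0 := by linarith
    have h5 : (T.S.d : ℝ) - 1 ≠ 0 := by linarith
    field_simp
  rw [h3] at h2
  have h6 : (fun n : ℕ => 1 / (T.S.d : ℝ) ^ (n + 1)) =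
      fun n : ℕ => 1 / (T.S.d : ℝ) * (1 / (T.S.d : ℝ)) ^ n := by
    funext n
    rw [one_div_pow, pow_succ]
    field_simp
  rw [h6]
  exact h2

lemma sm (T : BB Ω) (X : UV Ω) :
    Summable fun n : ℕ => hh T.S ((fU T.S)^[n] X) / (T.S.d : ℝ) ^ (n + 1) := by
  have hd : (2 : ℝ) ≤ T.S.d := by exact_mod_cast T.hd
  refine Summable.of_norm_bounded ((geo T).summable.mul_left (2 * T.ρ)) fun n => ?_
  have hp : (0 : ℝ) < (T.S.d : ℝ) ^ (n + 1) := by positivity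
  rw [norm_div, Real.norm_eq_abs, Real.norm_eq_abs, abs_of_pos hp, mul_one_div]
  refine div_le_div_of_nonneg_right ?_ hp.le
  rw [abs_le]
  exact ⟨le_hh T _, (hh_le T _).trans (by have := rho_nonneg T; linarith)⟩

lemma G0_le (T : BB Ω) (X : UV Ω) : G0 T.S X ≤ 0 := by
  unfold G0
  refine tsum_nonpos fun n => ?_
  exact div_nonpos_of_nonpos_of_nonneg (hh_le T _) (by positivity)

lemma le_G0 (T : BB Ω) (X : UV Ω) : -(2 * T.ρ / ((T.S.d : ℝ) - 1)) ≤ G0 T.S X := by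
  have hd : (2 : ℝ) ≤ T.S.d := by exact_mod_cast T.hd
  have h1 := (geo T).mul_left (-(2 * T.ρ))
  have h2 := hasSum_le (fun n => ?_) h1 (sm T X).hasSum
  · unfold G0
    refine le_trans (le_of_eq ?_) h2
    ring
  · have hp : (0 : ℝ) < (T.S.d : ℝ) ^ (n + 1) := by positivity
    rw [mul_one_div]
    exact div_le_div_of_nonneg_right (le_hh T _) hp.le

lemma G0_fU (T : BB Ω) (X : UV Ω) : G0 T.S (fU T.S X) = T.S.d * G0 T.S X - hh T.S X := by
  have hd : (2 : ℝ) ≤ T.S.d := by exact_mod_cast T.hd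
  have hd0 : (T.S.d : ℝ) ≠ 0 := by linarith
  have h1 := (sm T X).tsum_eq_zero_add
  have h2 : ∀ n : ℕ, hh T.S ((fU T.S)^[n + 1] X) / (T.S.d : ℝ) ^ (n + 1 + 1) =
      (1 / (T.S.d : ℝ)) * (hh T.S ((fU T.S)^[n] (fU T.S X)) / (T.S.d : ℝ) ^ (n + 1)) := by
    intro n
    rw [Function.iterate_succ_apply]
    field_simp
    ring
  simp_rw [h2] at h1
  rw [tsum_mul_left] at h1
  unfold G0
  rw [h1]
  simp only [Function.iterate_zero, id_eq, zero_add, pow_one]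
  field_simp
  ring

lemma log_iter (T : BB Ω) (n : ℕ) (X : UV Ω) : Real.log ‖T.S.F^[n] X.1‖ =
    (T.S.d : ℝ) ^ n * G0 T.S X - G0 T.S ((fU T.S)^[n] X) := by
  induction n generalizing X with
  | zero =>
    simp only [Function.iterate_zero, id_eq, pow_zero, one_mul, sub_self, X.2, Real.log_one]
  | succ n ih =>
    obtain ⟨t, ht, h1, h2⟩ := fU_spec T.S X
    have h3 : ∀ (m : ℕ) (W : Ω × Ω), T.S.F^[m] (t • W) = t ^ T.S.d ^ m • T.S.F^[m] W := by
      intro m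
      induction m with
      | zero => intro W; simp
      | succ m ihm =>
        intro W
        rw [Function.iterate_succ_apply', ihm, T.S.hom, Function.iterate_succ_apply', ← pow_mul,
          ← pow_succ]
    have h4 : T.S.F^[n] (fU T.S X).1 ≠ 0 := by
      have : ∀ (m : ℕ) (W : Ω × Ω), W ≠ 0 → T.S.F^[m] W ≠ 0 := by
        intro m
        induction m with
        | zero => intro W hW; exact hW
        | succ m ihm =>
          intro W hW
          rw [Function.iterate_succ_apply']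
          exact T.S.nz _ (ihm W hW)
      exact this n _ (fU T.S X).ne
    rw [Function.iterate_succ_apply, h1, h3, norm_smul, norm_pow, Real.log_mul
      (pow_ne_zero _ (norm_ne_zero_iff.2 ht)) (norm_ne_zero_iff.2 h4), Real.log_pow, ih, h2,
      G0_fU, Function.iterate_succ_apply]
    unfold hh
    push_cast
    ring

lemma sum_rule (T : BB Ω) {X Y : UV Ω} (h : ¬ eqv (fU T.S X) Y) :
    ∑ l, gg T.S X (rt T.S Y l) = gg T.S (fU T.S X) Y := by
  have hd : (2 : ℝ) ≤ T.S.d := by exact_mod_cast T.hd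
  have hd0 : (T.S.d : ℝ) ≠ 0 := by linarith
  have hd1 : (T.S.d : ℝ) - 1 ≠ 0 := by linarith
  set c := (T.S.roots Y.1 Y.2).choose with hc
  have hrs : T.S.IsRS Y.1 c (fun l => (rt T.S Y l).1) := rt_spec T.S Y
  obtain ⟨s, hs, hs1, hs2⟩ := fU_spec T.S X
  have hw : wd (T.S.F X.1) Y.1 = s * wd (fU T.S X).1 Y.1 := by rw [hs1, wd_smul_left]
  have hw0 : wd (fU T.S X).1 Y.1 ≠ 0 := h
  have hpos : 0 < ‖wd (T.S.F X.1) Y.1‖ := by
    rw [hw]
    exact norm_pos_iff.2 (mul_ne_zero hs hw0)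
  have e1 := HS.sum_log hrs hpos
  have e2 := HS.sum_log_F hrs
  have e3 : Real.log ‖wd (T.S.F X.1) Y.1‖ = hh T.S X + Real.log ‖wd (fU T.S X).1 Y.1‖ := by
    rw [hw, norm_mul, Real.log_mul (norm_ne_zero_iff.2 hs) (norm_ne_zero_iff.2 hw0), hs2]
    rfl
  have e4 : ∀ l, G0 T.S (rt T.S Y l) = (G0 T.S Y + hh T.S (rt T.S Y l)) / T.S.d := by
    intro l
    have h1 := G0_fU T (rt T.S Y l)
    rw [G0_eqv T.S (rt_eqv T.S Y l)] at h1
    field_simp
    linarith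
  have e5 : ∑ l, G0 T.S (rt T.S Y l) = G0 T.S Y + (∑ l, hh T.S (rt T.S Y l)) / T.S.d := by
    simp_rw [e4]
    rw [← Finset.sum_div, Finset.sum_add_distrib, Finset.sum_const, Finset.card_univ,
      Fintype.card_fin, nsmul_eq_mul]
    field_simp
  have e6 : ∑ l, hh T.S (rt T.S Y l) = -(T.S.Res + T.S.d * Real.log ‖c‖) := by
    rw [← e2, Finset.sum_neg_distrib, neg_neg]
    rfl
  unfold gg
  rw [Finset.sum_add_distrib, Finset.sum_add_distrib, Finset.sum_add_distrib, e1, e5, e6,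
    Finset.sum_const, Finset.sum_const, Finset.card_univ, Fintype.card_fin, nsmul_eq_mul,
    nsmul_eq_mul, e3, G0_fU]
  field_simp
  ring

lemma gg_ge (T : BB Ω) {X Y : UV Ω} (_h : ¬ eqv X Y) :
    -(2 * T.ρ / ((T.S.d : ℝ) - 1)) ≤ gg T.S X Y := by
  have hd : (2 : ℝ) ≤ T.S.d := by exact_mod_cast T.hd
  have hd0 : (T.S.d : ℝ) ≠ 0 := by linarith
  have hd1 : (T.S.d : ℝ) - 1 ≠ 0 := by linarith
  have h1 : Real.log ‖wd X.1 Y.1‖ ≤ 0 := by
    refine Real.log_nonpos (norm_nonneg _) ?_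
    have := norm_wd_le X.1 Y.1
    rwa [X.2, Y.2, one_mul] at this
  have h2 := le_G0 T X
  have h3 := le_G0 T Y
  have h4 : T.S.Res / (T.S.d * ((T.S.d : ℝ) - 1)) = 2 * T.ρ / ((T.S.d : ℝ) - 1) := by
    rw [T.hRes]
    field_simp
  unfold gg
  rw [h4]
  linarith

end

/-- properties of the Green function and of the pairing -/
theorem t_GRN : S_GRN.{u} := by
  intro Ω _ _ _ _ T
  exact ⟨rho_nonneg T, fun X => ⟨le_hh T X, hh_le T X⟩, fun X => ⟨le_G0 T X, G0_le T X⟩,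
    G0_fU T, log_iter T,
    fun X Y h => ⟨hh_eqv T.S h, G0_eqv T.S h, fU_eqv T.S h, fun Z => gg_eqv T.S h Z⟩,
    gg_symm T.S, rt_eqv T.S, fun X Y h => sum_rule T h, fun X Y h => gg_ge T h⟩

end Pool.Agent.Y824.BI
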